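import Pool.Agent.helper46.T1.SpecP
import Pool.Agent.helper79.MS.SCH

/-!
# MP_07c750, project T1, row t1:XSC (helper21): Schur's test on the group
-/

set_option autoImplicit false

open scoped MatrixGroups ContDiff Topology UpperHalfPlane ComplexConjugate
open UpperHalfPlane MeasureTheory Filter Set

namespace Pool.Agent.TP

open Pool.Agent.RS Pool.Agent.MS

theorem XSC_proof : XSC_stmt := by
  intro Γ F a b hΓ hF ham hbm hainv
  have := A_GLC.2.1
  have := SCH_fc A_GMG
  have := A_GMG.2.2.1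
  have hmulm : Measurable (fun p : SL(2, ℝ) × SL(2, ℝ) => p.1 * p.2) := (continuous_fst.mul continuous_snd).measurable
  -- pointwise Cauchy-Schwarz
  have hpt : ∀ h : SL(2, ℝ), (∫⁻ k, a (h * k) * b k ∂mG) ^ 2 ≤ (∫⁻ k, b k ∂mG) * ∫⁻ k, a (h * k) ^ 2 * b k ∂mG := by
    intro h
    have hmul : Measurable (fun k : SL(2, ℝ) => h * k) := (continuous_const_mul h).measurable
    have c2 := SCH_cs mG (a := fun k => a (h * k)) (b := b) MeasurableSet.univ (ham.comp hmul) hbm
      (fun k _ => Set.mem_univ k)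
    rw [Measure.restrict_univ] at c2
    exact c2
  calc ∫⁻ h in dG F, (∫⁻ k, a (h * k) * b k ∂mG) ^ 2 ∂mG
      ≤ ∫⁻ h in dG F, (∫⁻ k, b k ∂mG) * ∫⁻ k, a (h * k) ^ 2 * b k ∂mG ∂mG := lintegral_mono fun h => hpt h
    _ = (∫⁻ k, b k ∂mG) * ∫⁻ h in dG F, ∫⁻ k, a (h * k) ^ 2 * b k ∂mG ∂mG := by
      refine lintegral_const_mul _ ?_
      exact Measurable.lintegral_prod_right (((ham.comp hmulm).pow_const 2).mul (hbm.comp measurable_snd))
    _ = (∫⁻ k, b k ∂mG) * ∫⁻ k, (∫⁻ g in dG F, a g ^ 2 ∂mG) * b k ∂mG := by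
      have q1 : AEMeasurable (Function.uncurry fun (h k : SL(2, ℝ)) => a (h * k) ^ 2 * b k)
          ((mG.restrict (dG F)).prod mG) :=
        (((ham.comp hmulm).pow_const 2).mul (hbm.comp measurable_snd)).aemeasurable
      rw [lintegral_lintegral_swap q1]
      refine congrArg (fun x => (∫⁻ k, b k ∂mG) * x) (lintegral_congr fun k => ?_)
      have hmk : Measurable (fun h : SL(2, ℝ) => h * k) := (continuous_mul_const k).measurable
      have hmk2 : Measurable (fun h : SL(2, ℝ) => a (h * k) ^ 2) := (ham.comp hmk).pow_const 2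
      rw [lintegral_mul_const _ hmk2]
      refine congrArg (fun x => x * b k) ?_
      exact SCH_right A_GLC A_GMG A_GLI A_GRI Γ F hΓ hF (fun g => a g ^ 2) k (fun γ g => by
        simp only [hainv])
    _ = (∫⁻ k, b k ∂mG) ^ 2 * ∫⁻ g in dG F, a g ^ 2 ∂mG := by
      rw [lintegral_const_mul _ hbm]
      ring

end Pool.Agent.TP
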