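import Pool.Agent.helper52.T1.SpecS

/-!
# Row t1:MON (MP_07c750_an): monotonicity of the leaf inequality
-/

set_option autoImplicit false

open scoped MatrixGroups ContDiff Topology UpperHalfPlane ComplexConjugate
open UpperHalfPlane MeasureTheory Filter Set

namespace Pool.Agent.T1

open Pool.Agent.RS Pool.Agent.MS Pool.Agent.HV
open Pool.Agent.EN (XG MG mkX mkM fl pr)

noncomputable section

theorem MON_norm (x : ℝ) : ‖e1 x‖ = 1 := by
  unfold e1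
  exact Complex.norm_exp_ofReal_mul_I _

theorem MON_e1add (x y : ℝ) : e1 (x + y) = e1 x * e1 y := by
  unfold e1
  rw [← Complex.exp_add]
  congr 1
  push_cast
  ring

theorem MON_cont (J : Finset ℕ) (a : ℕ → ℂ) : Continuous fun v : ℝ => ‖∑ j ∈ J, a j * e1 (j * v)‖ ^ 2 := by
  unfold e1
  fun_prop

theorem MON_int (J : Finset ℕ) (a : ℕ → ℂ) (Y : Set ℝ) (hY : Y ⊆ Icc 0 1) : IntegrableOn (fun v : ℝ => ‖∑ j ∈ J, a j * e1 (j * v)‖ ^ 2) Y :=
  ((MON_cont J a).integrableOn_Icc).mono_set hY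

theorem MON_J (Y : Set ℝ) (J J' : Finset ℕ) (Q : ℝ) (hJ : J' ⊆ J) (h : LQ Y J Q) : LQ Y J' Q := by
  classical
  intro a
  have h1 := h fun j => if j ∈ J' then a j else 0
  have h2 : ∀ v : ℝ, ∑ j ∈ J, (if j ∈ J' then a j else 0) * e1 (j * v) = ∑ j ∈ J', a j * e1 (j * v) := by
    intro v
    rw [← Finset.sum_subset hJ]
    · exact Finset.sum_congr rfl fun j hj => by rw [if_pos hj]
    · intro j _ hj
      rw [if_neg hj, zero_mul]
  have h3 : ∑ j ∈ J, ‖(if j ∈ J' then a j else 0 : ℂ)‖ ^ 2 = ∑ j ∈ J', ‖a j‖ ^ 2 := by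
    rw [← Finset.sum_subset hJ]
    · exact Finset.sum_congr rfl fun j hj => by rw [if_pos hj]
    · intro j _ hj
      rw [if_neg hj, norm_zero]
      norm_num
  simp only [h2] at h1
  rw [h3] at h1
  exact h1

theorem MON_Y (Y Y' : Set ℝ) (J : Finset ℕ) (Q Q' : ℝ) (hY : Y ⊆ Icc 0 1) (hYm : MeasurableSet Y) (hY' : Y' ⊆ Y) (hQ : Q ≤ Q') (h : LQ Y J Q) : LQ Y' J Q' := by
  intro a
  have h1 : ∫ v in Y', ‖∑ j ∈ J, a j * e1 (j * v)‖ ^ 2 ≤ ∫ v in Y, ‖∑ j ∈ J, a j * e1 (j * v)‖ ^ 2 :=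
    setIntegral_mono_set (MON_int J a Y hY) (Filter.Eventually.of_forall fun v => sq_nonneg _) (HasSubset.Subset.eventuallyLE hY')
  have h2 : 0 ≤ ∑ j ∈ J, ‖a j‖ ^ 2 := Finset.sum_nonneg fun j _ => sq_nonneg _
  exact h1.trans ((h a).trans (mul_le_mul_of_nonneg_right hQ h2))

theorem MON_sq (x y : ℂ) : ‖x + y‖ ^ 2 ≤ 2 * ‖x‖ ^ 2 + 2 * ‖y‖ ^ 2 := by
  have h1 := norm_add_le x y
  have h2 := norm_nonneg (x + y)
  have h3 : ‖x + y‖ ^ 2 ≤ (‖x‖ + ‖y‖) ^ 2 := pow_le_pow_left₀ h2 h1 2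
  nlinarith [sq_nonneg (‖x‖ - ‖y‖)]

theorem MON_proof : MON_stmt := by
  classical
  refine ⟨?_, ?_, ?_, ?_, ?_⟩
  · intro Y Y' J J' Q Q' hYm _ hY hY' hJ _ hQ h
    exact MON_Y Y Y' J' Q Q' hY hYm hY' hQ (MON_J Y J J' Q hJ h)
  · intro Y Y' J Q Q' hYm hYm' hY hY' h h' a
    have h1 : Y ∪ Y' = Y ∪ (Y' \ Y) := (union_diff_self).symm
    have h2 : IntegrableOn (fun v : ℝ => ‖∑ j ∈ J, a j * e1 (j * v)‖ ^ 2) (Y' \ Y) := MON_int J a _ (diff_subset.trans hY')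
    rw [h1, setIntegral_union disjoint_sdiff_right (hYm'.diff hYm) (MON_int J a Y hY) h2]
    have h3 := MON_Y Y' (Y' \ Y) J Q' Q' hY' hYm' diff_subset le_rfl h' a
    rw [add_mul]
    exact add_le_add (h a) h3
  · intro Y J J' Q Q' hYm hY hQ hQ' h h' a
    have h1 : ∀ v : ℝ, ∑ j ∈ J ∪ J', a j * e1 (j * v) = ∑ j ∈ J, a j * e1 (j * v) + ∑ j ∈ J' \ J, a j * e1 (j * v) := by
      intro v
      rw [← Finset.union_sdiff_self_eq_union, Finset.sum_union Finset.disjoint_sdiff]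
    have h2 : ∑ j ∈ J ∪ J', ‖a j‖ ^ 2 = ∑ j ∈ J, ‖a j‖ ^ 2 + ∑ j ∈ J' \ J, ‖a j‖ ^ 2 := by
      rw [← Finset.union_sdiff_self_eq_union, Finset.sum_union Finset.disjoint_sdiff]
    have h3 : ∫ v in Y, ‖∑ j ∈ J ∪ J', a j * e1 (j * v)‖ ^ 2 ≤ ∫ v in Y, (2 * ‖∑ j ∈ J, a j * e1 (j * v)‖ ^ 2 + 2 * ‖∑ j ∈ J' \ J, a j * e1 (j * v)‖ ^ 2) := by
      refine setIntegral_mono_on (MON_int _ a Y hY) (((MON_int J a Y hY).const_mul 2).add ((MON_int (J' \ J) a Y hY).const_mul 2)) hYm fun v _ => ?_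
      rw [h1]
      exact MON_sq _ _
    have h4 : ∫ v in Y, (2 * ‖∑ j ∈ J, a j * e1 (j * v)‖ ^ 2 + 2 * ‖∑ j ∈ J' \ J, a j * e1 (j * v)‖ ^ 2) =
        2 * (∫ v in Y, ‖∑ j ∈ J, a j * e1 (j * v)‖ ^ 2) + 2 * ∫ v in Y, ‖∑ j ∈ J' \ J, a j * e1 (j * v)‖ ^ 2 := by
      rw [integral_add ((MON_int J a Y hY).const_mul 2) ((MON_int (J' \ J) a Y hY).const_mul 2), integral_const_mul, integral_const_mul]
    have h5 := h a
    have h6 := MON_J Y J' (J' \ J) Q' Finset.sdiff_subset h' a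
    have p1 : 0 ≤ ∑ j ∈ J, ‖a j‖ ^ 2 := Finset.sum_nonneg fun j _ => sq_nonneg _
    have p2 : 0 ≤ ∑ j ∈ J' \ J, ‖a j‖ ^ 2 := Finset.sum_nonneg fun j _ => sq_nonneg _
    rw [h2]
    rw [h4] at h3
    nlinarith [mul_nonneg hQ p2, mul_nonneg hQ' p1]
  · intro Y J s Q hYm hY h a
    have hinj : ∀ x ∈ J, ∀ y ∈ J, x + s = y + s → x = y := fun x _ y _ hxy => by omega
    have h1 : ∀ v : ℝ, ‖∑ j ∈ J.image fun j => j + s, a j * e1 (j * v)‖ ^ 2 = ‖∑ j ∈ J, a (j + s) * e1 (j * v)‖ ^ 2 := by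
      intro v
      rw [Finset.sum_image hinj]
      have h2 : ∑ j ∈ J, a (j + s) * e1 (((j + s : ℕ) : ℝ) * v) = e1 (s * v) * ∑ j ∈ J, a (j + s) * e1 (j * v) := by
        rw [Finset.mul_sum]
        refine Finset.sum_congr rfl fun j _ => ?_
        have h3 : ((j + s : ℕ) : ℝ) * v = s * v + j * v := by
          push_cast
          ring
        rw [h3, MON_e1add]
        ring
      rw [h2, norm_mul, MON_norm, one_mul]
    simp only [h1]
    rw [Finset.sum_image hinj]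
    exact h fun j => a (j + s)
  · intro N C C' hN hC hC'
    have hNR : (0 : ℝ) < N := by exact_mod_cast hN
    have hcel : cel N C = ⋃ c ∈ C, Ico ((c : ℝ) / N) (((c : ℝ) + 1) / N) := by
      ext v
      simp only [cel, mem_setOf_eq, mem_iUnion, mem_Ico, exists_prop]
    refine ⟨?_, ?_, ?_, ?_⟩
    · rw [hcel]
      exact Finset.measurableSet_biUnion _ fun c _ => measurableSet_Ico
    · rintro v ⟨c, hc, h1, h2⟩
      have h3 : (c : ℝ) + 1 ≤ N := by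
        exact_mod_cast hC c hc
      refine ⟨le_trans (by positivity) h1, h2.le.trans ?_⟩
      rw [div_le_one hNR]
      exact h3
    · rintro v ⟨c, hc, h1⟩
      exact ⟨c, hC' hc, h1⟩
    · rw [hcel]
      refine (measureReal_biUnion_finset_le C _).trans ?_
      have h1 : ∀ c ∈ C, volume.real (Ico ((c : ℝ) / N) (((c : ℝ) + 1) / N)) = 1 / N := by
        intro c _
        rw [Real.volume_real_Ico_of_le]
        · ring
        · exact div_le_div_of_nonneg_right (by linarith) hNR.le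
      rw [Finset.sum_congr rfl h1, Finset.sum_const, nsmul_eq_mul]
      exact le_of_eq (by ring)

end

end Pool.Agent.T1
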