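import Pool.Agent.helper52.T1.SpecS

/-!
# Row t1:UZN (MP_07c750_an): counting the cells of a box
-/

set_option autoImplicit false

open scoped MatrixGroups ContDiff Topology UpperHalfPlane ComplexConjugate
open UpperHalfPlane MeasureTheory Filter Set

namespace Pool.Agent.T1

open Pool.Agent.RS Pool.Agent.MS Pool.Agent.HV
open Pool.Agent.EN (XG MG mkX mkM fl pr)

noncomputable section

theorem UZN_lM (s t : ℝ) : lM s * lM t = lM (s + t) := by
  apply Subtype.ext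
  show !![1, 0; s, 1] * !![1, 0; t, 1] = !![1, 0; s + t, (1 : ℝ)]
  rw [Matrix.mul_fin_two]
  simp

/-- the digit condition: `c ≤ v N0^k < c + 1` implies the same for the ancestor cells -/
theorem UZN_dig (N0 k i c : ℕ) (v : ℝ) (h0 : 1 ≤ N0) (hi : i < k) (h1 : (c : ℝ) ≤ v * N0 ^ k) (h2 : v * N0 ^ k < (c : ℝ) + 1) :
    ((c / N0 ^ (k - 1 - i) : ℕ) : ℝ) ≤ v * N0 ^ (i + 1) ∧ v * N0 ^ (i + 1) < ((c / N0 ^ (k - 1 - i) : ℕ) : ℝ) + 1 := by
  have hM0 : 0 < N0 ^ (k - 1 - i) := pow_pos (by omega) _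
  obtain ⟨M, hM⟩ : ∃ M, M = N0 ^ (k - 1 - i) := ⟨_, rfl⟩
  rw [← hM] at hM0 ⊢
  have hMR : (0 : ℝ) < (M : ℝ) := by exact_mod_cast hM0
  have hk : v * (N0 : ℝ) ^ k = v * N0 ^ (i + 1) * M := by
    have h3 : k = (i + 1) + (k - 1 - i) := by omega
    rw [hM]
    push_cast
    rw [mul_assoc, ← pow_add, ← h3]
  rw [hk] at h1 h2
  constructor
  · have h3 : ((c / M : ℕ) : ℝ) * M ≤ c := by
      exact_mod_cast Nat.div_mul_le_self c M
    exact le_of_mul_le_mul_right (h3.trans h1) hMR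
  · have h3 : c + 1 ≤ (c / M + 1) * M := by
      have h4 := Nat.div_add_mod c M
      have h5 := Nat.mod_lt c hM0
      have h6 : (c / M + 1) * M = M * (c / M) + M := by ring
      omega
    have h4 : ((c : ℝ) + 1) ≤ (((c / M : ℕ) : ℝ) + 1) * M := by
      exact_mod_cast h3
    exact lt_of_mul_lt_mul_right (h2.trans_le h4) hMR.le

theorem UZN_proof (hCNB : CNB_stmt) : UZN_stmt := by
  classical
  intro Γ hΓ
  obtain ⟨C, hC, hCN⟩ := hCNB Γ hΓ
  refine ⟨C, hC, fun b K N0 A W hb hb1 hK hKN hN hW k p z => ?_⟩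
  obtain ⟨B, hB⟩ : ∃ B : ℝ, B = (C * K * A.card) ^ Kc p 0 k * (N0 : ℝ) ^ (k - Kc p 0 k) := ⟨_, rfl⟩
  rw [← hB]
  obtain ⟨N, hNd⟩ : ∃ N : ℕ, N = N0 ^ k := ⟨_, rfl⟩
  have hN0 : 0 < N := by
    rw [hNd]
    exact pow_pos (by omega) _
  have hNR : ((N : ℕ) : ℝ) = (N0 : ℝ) ^ k := by
    rw [hNd]
    push_cast
    rfl
  have hcov : Uz W N0 k p z ⊆ ({-1, 0, 1} : Finset ℤ).biUnion fun m => (YC W N0 k p (z * lM (4 * (m : ℝ)))).image fun c : ℕ => (c : ℤ) + m * (N : ℤ) := by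
    intro κ hκ
    unfold Uz at hκ
    rw [Finset.mem_filter, Finset.mem_Ico, ← hNd] at hκ
    obtain ⟨⟨hκ1, hκ2⟩, u, hu1, hu2, hu3⟩ := hκ
    have hNZ : (0 : ℤ) < (N : ℤ) := by exact_mod_cast hN0
    obtain ⟨m, hm⟩ : ∃ m : ℤ, m = κ / (N : ℤ) := ⟨_, rfl⟩
    have h1 := Int.emod_add_mul_ediv κ (N : ℤ)
    have h2 := Int.emod_nonneg κ hNZ.ne'
    have h3 := Int.emod_lt_of_pos κ hNZ
    rw [← hm] at h1
    obtain ⟨c, hc⟩ := Int.eq_ofNat_of_zero_le h2
    rw [hc] at h1 h3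
    have hm1 : -1 ≤ m := by
      by_contra h
      have h4 : m ≤ -2 := by omega
      nlinarith
    have hm2 : m ≤ 1 := by
      by_contra h
      have h4 : 2 ≤ m := by omega
      nlinarith
    rw [Finset.mem_biUnion]
    refine ⟨m, ?_, ?_⟩
    · have h5 : m = -1 ∨ m = 0 ∨ m = 1 := by omega
      rcases h5 with h5 | h5 | h5 <;> rw [h5] <;> simp
    · rw [Finset.mem_image]
      refine ⟨c, ?_, by rw [← h1]; ring⟩
      unfold YC
      rw [Finset.mem_filter, Finset.mem_range, ← hNd]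
      refine ⟨by exact_mod_cast h3, fun i hi hp => ?_⟩
      have hκR : (κ : ℝ) = (c : ℝ) + (N : ℝ) * (m : ℝ) := by
        rw [← h1]
        push_cast
        ring
      obtain ⟨h6, h7⟩ := UZN_dig N0 k i c (u - m) (by omega) hi (by
        rw [sub_mul, ← hNR]
        rw [hκR, ← hNR] at hu1
        linarith) (by
        rw [sub_mul, ← hNR]
        rw [hκR, ← hNR] at hu2
        linarith)
      refine ⟨u - m, h6, h7, ?_⟩
      have h8 : z * lM (4 * (m : ℝ)) * lM (4 * (u - m)) = z * lM (4 * u) := by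
        rw [mul_assoc, UZN_lM]
        congr 2
        ring
      rw [h8]
      exact hu3 i hi hp
  have h1 : (Uz W N0 k p z).card ≤ ∑ m ∈ ({-1, 0, 1} : Finset ℤ), (YC W N0 k p (z * lM (4 * (m : ℝ)))).card :=
    (Finset.card_le_card hcov).trans (Finset.card_biUnion_le.trans (Finset.sum_le_sum fun m _ => Finset.card_image_le))
  have h2 : ((Uz W N0 k p z).card : ℝ) ≤ ∑ m ∈ ({-1, 0, 1} : Finset ℤ), ((YC W N0 k p (z * lM (4 * (m : ℝ)))).card : ℝ) := by
    exact_mod_cast h1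
  refine h2.trans ?_
  have h3 : ∀ m ∈ ({-1, 0, 1} : Finset ℤ), ((YC W N0 k p (z * lM (4 * (m : ℝ)))).card : ℝ) ≤ B := by
    intro m _
    rw [hB]
    exact (hCN b K N0 A W hb hb1 hK hKN hN hW k p _).1
  refine (Finset.sum_le_card_nsmul _ _ _ h3).trans ?_
  rw [nsmul_eq_mul]
  have h4 : (({-1, 0, 1} : Finset ℤ)).card = 3 := by decide
  rw [h4]
  norm_num

end

end Pool.Agent.T1
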