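import Pool.Agent.helper46.T1.SpecP
import Pool.Agent.helper79.MS.SCH
import Pool.Agent.helper9.MS.AS1
import Pool.Agent.helper27.MS.MS2
import Pool.Agent.helper87.HF.BWM

/-!
# MP_07c750, project T1, row t1:PUP (helper21): the uncertainty principle for a slowly varying symbol
-/

set_option autoImplicit false

open scoped MatrixGroups ContDiff Topology UpperHalfPlane ComplexConjugate
open UpperHalfPlane MeasureTheory Filter Set

namespace Pool.Agent.TP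

open Pool.Agent.RS Pool.Agent.MS

/-- Minkowski's inequality with three terms -/
theorem PUP_mink3 {X : Type} [MeasurableSpace X] (μ : Measure X) [IsFiniteMeasure μ] (f g g' h : X → ℝ)
    (hf : Measurable f) (hg : Measurable g) (hg' : Measurable g') (Cf : ∃ m : ℝ, ∀ x, |f x| ≤ m)
    (Cg : ∃ m : ℝ, ∀ x, |g x| ≤ m) (Cg' : ∃ m : ℝ, ∀ x, |g' x| ≤ m)
    (hg0 : ∀ x, 0 ≤ g x) (hg0' : ∀ x, 0 ≤ g' x) (hh0 : ∀ x, 0 ≤ h x) (hle : ∀ x, h x ≤ f x + (g x + g' x)) :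
    Real.sqrt (∫ x, h x ^ 2 ∂μ) ≤ Real.sqrt (∫ x, f x ^ 2 ∂μ) + (Real.sqrt (∫ x, g x ^ 2 ∂μ) + Real.sqrt (∫ x, g' x ^ 2 ∂μ)) := by
  have C2 : ∃ m : ℝ, ∀ x, |g x + g' x| ≤ m := by
    obtain ⟨m, hm⟩ := Cg
    obtain ⟨m', hm'⟩ := Cg'
    exact ⟨m + m', fun x => (abs_add_le _ _).trans (add_le_add (hm x) (hm' x))⟩
  have h1 := AS1_mink μ f (fun x => g x + g' x) h hf (hg.add hg') Cf C2 hh0 hle
  have h2 := AS1_mink μ g g' (fun x => g x + g' x) hg hg' Cg Cg' (fun x => add_nonneg (hg0 x) (hg0' x))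
    (fun x => le_rfl)
  exact h1.trans (add_le_add le_rfl h2)

theorem PUP_sq (r η X I I1 I2 I3 P Y : ℝ) (hr : 0 < r) (hη : 0 ≤ η) (h : Real.sqrt I ≤ Real.sqrt I1 + (Real.sqrt I2 + Real.sqrt I3))
    (h1 : r * I1 ≤ X) (h2 : r * I2 ≤ P) (h3 : r * I3 ≤ (1 + η) ^ 2 * (r * Y)) :
    Real.sqrt (r * I) ≤ Real.sqrt X + Real.sqrt P + (1 + η) * Real.sqrt (r * Y) := by
  have e : ∀ J : ℝ, Real.sqrt (r * J) = Real.sqrt r * Real.sqrt J := fun J => Real.sqrt_mul hr.le _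
  have h4 := mul_le_mul_of_nonneg_left h (Real.sqrt_nonneg r)
  rw [mul_add, mul_add, ← e, ← e, ← e, ← e] at h4
  have h5 : Real.sqrt (r * I3) ≤ (1 + η) * Real.sqrt (r * Y) := by
    refine (Real.sqrt_le_sqrt h3).trans (le_of_eq ?_)
    rw [Real.sqrt_mul (sq_nonneg _), Real.sqrt_sq (by linarith)]
  have h6 := Real.sqrt_le_sqrt h1
  have h7 := Real.sqrt_le_sqrt h2
  linarith

/-- the core estimate -/
theorem PUP_core (hSYB : SYB_stmt) (Γ : Subgroup SL(2, ℝ)) (F : Set ℍ) (hΓ : QU.SurfaceGroup Γ) (hF : QU.NiceDom Γ F)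
    (c c' : ℍ → ℂ) (hc : TB (1 / 4) c) (hc' : TB (1 / 4) c') (r η X S1 S2 : ℝ) (φ : ℍ → ℂ) (B D : Set SL(2, ℝ)) (k : SL(2, ℝ) → ℝ)
    (hr : 0 < r) (hη : 0 ≤ η) (hφI : InvC Γ φ) (hn : nn F φ = 1)
    (hfb : ∀ u : ℍ → ℂ, InvC Γ u → r * qn F c r u ≤ (1 + η) * nn F u)
    (hfb' : ∀ u : ℍ → ℂ, InvC Γ u → r * qn F c' r u ≤ (1 + η) * nn F u)
    (hB : MeasurableSet B) (hD : MeasurableSet D) (hBi : ∀ (γ : Γ) (g : SL(2, ℝ)), (γ : SL(2, ℝ)) * g ∈ B ↔ g ∈ B)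
    (hDi : ∀ (γ : Γ) (g : SL(2, ℝ)), (γ : SL(2, ℝ)) * g ∈ D ↔ g ∈ D) (hS1 : 0 ≤ S1) (hS2 : 0 ≤ S2)
    (hk1 : ∀ h : SL(2, ℝ), ∫⁻ k in {k | h * k ∈ B}, ENNReal.ofReal ‖gk r c' c k‖ ∂mG ≤ ENNReal.ofReal S1)
    (hk2 : ∀ g : SL(2, ℝ), ∫⁻ k in {k | g * k⁻¹ ∈ D}, ENNReal.ofReal ‖gk r c' c k‖ ∂mG ≤ ENNReal.ofReal S2)
    (hk : InvG Γ k) (hk01 : ∀ g, 0 ≤ k g ∧ k g ≤ 1)
    (hX : r * iR F (fun g => ‖(r : ℂ) * Wf (pk r c') (sy Γ F (fun z => conj (pk r c z)) (fun g => (k g : ℂ) * Wf (pk r c) φ g)) g -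
      (k g : ℂ) * Wf (pk r c') φ g‖ ^ 2) ≤ X) :
    Real.sqrt (r * ∫ g in dG F ∩ D, k g ^ 2 * ‖Wf (pk r c') φ g‖ ^ 2 ∂mG) ≤
      Real.sqrt X + Real.sqrt (r ^ 2 * S1 * S2 * (1 + η)) + (1 + η) * Real.sqrt (r * ∫ g in dG F \ B, k g ^ 2 * ‖Wf (pk r c) φ g‖ ^ 2 ∂mG) := by
  have : SecondCountableTopology SL(2, ℝ) := A_GLC.2.1
  have hT := A_FL0.2.1 _ r c hc
  have hcont : Continuous (pk r c) := AS1_cont hT.1
  have hsupp : HasCompactSupport (pk r c) := hT.2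
  have hT' := A_FL0.2.1 _ r c' hc'
  have hcont' : Continuous (pk r c') := AS1_cont hT'.1
  have hsupp' : HasCompactSupport (pk r c') := hT'.2
  obtain ⟨⟨hdm, -, hdf, -⟩, -⟩ := A_GFD Γ F hΓ hF
  have hfin : IsFiniteMeasure (mG.restrict (dG F)) := ⟨by rw [Measure.restrict_apply_univ]; exact hdf⟩
  have hfinD : IsFiniteMeasure (mG.restrict (dG F ∩ D)) :=
    ⟨by rw [Measure.restrict_apply_univ]; exact lt_of_le_of_lt (measure_mono inter_subset_left) hdf⟩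
  -- the packet coefficient
  have hb : InvG Γ (Wf (pk r c) φ) := (A_GWB Γ _ _ hΓ hcont hsupp hφI).1
  have hb' : InvG Γ (Wf (pk r c') φ) := (A_GWB Γ _ _ hΓ hcont' hsupp' hφI).1
  obtain ⟨m, hm⟩ := (A_GBD Γ ℂ _ hΓ hb).1
  have hm0 : 0 ≤ m := le_trans (norm_nonneg _) (hm 1)
  set b := Wf (pk r c) φ with hbdef
  set v : SL(2, ℝ) → ℂ := fun g => (k g : ℂ) * b g with hv
  have hkc : Continuous fun g => (k g : ℂ) := Complex.continuous_ofReal.comp hk.1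
  have hvI : InvG Γ v := ⟨hkc.mul hb.1, fun γ g => by
    change (k ((γ : SL(2, ℝ)) * g) : ℂ) * b ((γ : SL(2, ℝ)) * g) = (k g : ℂ) * b g
    rw [hk.2, hb.2]⟩
  have hvn : ∀ g, ‖v g‖ = k g * ‖b g‖ := fun g => by
    change ‖(k g : ℂ) * b g‖ = _
    rw [norm_mul, Complex.norm_real, Real.norm_of_nonneg (hk01 g).1]
  have hvb : ∀ g, ‖v g‖ ≤ ‖b g‖ := fun g => by
    rw [hvn]
    exact mul_le_of_le_one_left (norm_nonneg _) (hk01 g).2
  have hvm : Measurable v := hvI.1.measurable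
  have hv1m : Measurable (B.indicator v) := hvm.indicator hB
  have hv2m : Measurable (Bᶜ.indicator v) := hvm.indicator hB.compl
  have hv1b : ∀ g, ‖B.indicator v g‖ ≤ m := fun g =>
    (norm_indicator_le_norm_self v g).trans ((hvb g).trans (hm g))
  have hv2b : ∀ g, ‖Bᶜ.indicator v g‖ ≤ m := fun g =>
    (norm_indicator_le_norm_self v g).trans ((hvb g).trans (hm g))
  have hv1i : ∀ (γ : Γ) (g : SL(2, ℝ)), B.indicator v ((γ : SL(2, ℝ)) * g) = B.indicator v g := by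
    intro γ g
    by_cases h : g ∈ B
    · rw [indicator_of_mem h, indicator_of_mem ((hBi γ g).2 h), hvI.2]
    · rw [indicator_of_notMem h, indicator_of_notMem (fun h' => h ((hBi γ g).1 h'))]
  -- the frame bounds
  have hκ : 0 ≤ (1 + η) / r := div_nonneg (by linarith) hr.le
  have hfr : ∀ u : ℍ → ℂ, InvC Γ u → qn F c r u ≤ (1 + η) / r * nn F u := by
    intro u hu
    have h1 := hfb u hu
    rw [div_mul_eq_mul_div, le_div_iff₀ hr]
    linarith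
  have hfr' : ∀ u : ℍ → ℂ, InvC Γ u → qn F c' r u ≤ (1 + η) / r * nn F u := by
    intro u hu
    have h1 := hfb' u hu
    rw [div_mul_eq_mul_div, le_div_iff₀ hr]
    linarith
  obtain ⟨w1I, -⟩ := hSYB Γ F (pk r c) _ hΓ hF hcont hsupp hκ hfr _ hv1m ⟨m, hv1b⟩
  obtain ⟨w2I, w2n⟩ := hSYB Γ F (pk r c) _ hΓ hF hcont hsupp hκ hfr _ hv2m ⟨m, hv2b⟩
  obtain ⟨wI, -⟩ := hSYB Γ F (pk r c) _ hΓ hF hcont hsupp hκ hfr _ hvm ⟨m, fun g => (hvb g).trans (hm g)⟩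
  -- the periodisation
  have hcc : Continuous (fun z => conj (pk r c z)) := Complex.continuous_conj.comp hcont
  have hcs : HasCompactSupport (fun z => conj (pk r c z)) := by
    refine hsupp.mono' (fun z hz => ?_)
    apply subset_closure
    intro h
    apply hz
    change conj (pk r c z) = 0
    rw [h, map_zero]
  obtain ⟨-, hpc, -, -, -, ⟨mp, hmp⟩, -⟩ := A_GPE Γ F _ hΓ hF hcc hcs
  have hpI : ∀ (v : SL(2, ℝ) → ℂ), Measurable v → (∀ g, ‖v g‖ ≤ m) → ∀ z,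
      Integrable (fun g => v g * per Γ (fun z => conj (pk r c z)) g z) (mG.restrict (dG F)) := by
    intro v hv hvb z
    exact AS1_pint F (per Γ (fun z => conj (pk r c z))) hpc m mp hm0 hmp v hv hvb z
  set w1 := sy Γ F (fun z => conj (pk r c z)) (B.indicator v) with hw1
  set w2 := sy Γ F (fun z => conj (pk r c z)) (Bᶜ.indicator v) with hw2
  set w := sy Γ F (fun z => conj (pk r c z)) v with hw
  have hsum : ∀ z, w z = w1 z + w2 z := by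
    intro z
    rw [hw, hw1, hw2]
    unfold sy
    rw [← integral_add (hpI _ hv1m hv1b z) (hpI _ hv2m hv2b z)]
    refine integral_congr_ae (Eventually.of_forall fun g => ?_)
    change v g * _ = B.indicator v g * _ + Bᶜ.indicator v g * _
    rw [← add_mul]
    congr 1
    exact (indicator_self_add_compl_apply B v g).symm
  -- the pointwise bound
  have hWI : ∀ (w : ℍ → ℂ), InvC Γ w → ∀ h : SL(2, ℝ), Integrable (fun z : ℍ => pk r c' z * w (h • z)) := by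
    intro w hw h
    have h1 : Continuous (fun z : ℍ => pk r c' z * w (h • z)) :=
      hcont'.mul (hw.1.comp (continuous_const_smul h))
    exact h1.integrable_of_hasCompactSupport (hsupp'.mul_right)
  have hWs : ∀ h, Wf (pk r c') w h = Wf (pk r c') w1 h + Wf (pk r c') w2 h := by
    intro h
    unfold Wf
    rw [← integral_add (hWI w1 w1I h) (hWI w2 w2I h)]
    refine integral_congr_ae (Eventually.of_forall fun z => ?_)
    change pk r c' z * w (h • z) = pk r c' z * w1 (h • z) + pk r c' z * w2 (h • z)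
    rw [hsum]
    ring
  have hpt : ∀ h, k h * ‖Wf (pk r c') φ h‖ ≤ ‖(r : ℂ) * Wf (pk r c') w h - (k h : ℂ) * Wf (pk r c') φ h‖ +
      (r * ‖Wf (pk r c') w1 h‖ + r * ‖Wf (pk r c') w2 h‖) := by
    intro h
    have h1 : k h * ‖Wf (pk r c') φ h‖ = ‖(k h : ℂ) * Wf (pk r c') φ h‖ := by
      rw [norm_mul, Complex.norm_real, Real.norm_of_nonneg (hk01 h).1]
    have h2 : (k h : ℂ) * Wf (pk r c') φ h = -((r : ℂ) * Wf (pk r c') w h - (k h : ℂ) * Wf (pk r c') φ h) +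
        ((r : ℂ) * Wf (pk r c') w1 h + (r : ℂ) * Wf (pk r c') w2 h) := by
      rw [hWs]
      ring
    have h3 : ∀ u : ℂ, ‖(r : ℂ) * u‖ = r * ‖u‖ := fun u => by
      rw [norm_mul, Complex.norm_real, Real.norm_of_nonneg hr.le]
    have h4 : ‖(k h : ℂ) * Wf (pk r c') φ h‖ ≤ ‖(r : ℂ) * Wf (pk r c') w h - (k h : ℂ) * Wf (pk r c') φ h‖ +
        ‖(r : ℂ) * Wf (pk r c') w1 h + (r : ℂ) * Wf (pk r c') w2 h‖ := by
      have h5 := norm_add_le (-((r : ℂ) * Wf (pk r c') w h - (k h : ℂ) * Wf (pk r c') φ h))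
        ((r : ℂ) * Wf (pk r c') w1 h + (r : ℂ) * Wf (pk r c') w2 h)
      rw [← h2, norm_neg] at h5
      exact h5
    rw [h1, ← h3, ← h3]
    exact h4.trans (add_le_add le_rfl (norm_add_le _ _))
  -- norms
  have hW : ∀ (w : ℍ → ℂ), InvC Γ w → Measurable (fun h => ‖Wf (pk r c') w h‖) ∧
      ∃ m : ℝ, ∀ h, |‖Wf (pk r c') w h‖| ≤ m := by
    intro w hw
    have h1 := (A_GWB Γ _ _ hΓ hcont' hsupp' hw).1
    obtain ⟨k, hk⟩ := (A_GBD Γ ℂ _ hΓ h1).1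
    exact ⟨h1.1.norm.measurable, k, fun h => by rw [abs_norm]; exact hk h⟩
  have hWr : ∀ (w : ℍ → ℂ), InvC Γ w → Measurable (fun h => r * ‖Wf (pk r c') w h‖) ∧
      ∃ m : ℝ, ∀ h, |r * ‖Wf (pk r c') w h‖| ≤ m := by
    intro w hw
    obtain ⟨h1, m', h2⟩ := hW w hw
    refine ⟨h1.const_mul r, r * m', fun h => ?_⟩
    rw [abs_mul, abs_of_pos hr]
    exact mul_le_mul_of_nonneg_left (h2 h) hr.le
  have hE : InvG Γ (fun h => (r : ℂ) * Wf (pk r c') w h - (k h : ℂ) * Wf (pk r c') φ h) := by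
    have h1 := (A_GWB Γ _ _ hΓ hcont' hsupp' wI).1
    refine ⟨(continuous_const.mul h1.1).sub (hkc.mul hb'.1), fun γ g => ?_⟩
    change (r : ℂ) * Wf (pk r c') w ((γ : SL(2, ℝ)) * g) - (k ((γ : SL(2, ℝ)) * g) : ℂ) * Wf (pk r c') φ ((γ : SL(2, ℝ)) * g) = _
    rw [h1.2, hk.2, hb'.2]
  obtain ⟨mE, hmE⟩ := (A_GBD Γ ℂ _ hΓ hE).1
  have hEm : Measurable (fun h => ‖(r : ℂ) * Wf (pk r c') w h - (k h : ℂ) * Wf (pk r c') φ h‖) := hE.1.norm.measurable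
  have hEb : ∃ m : ℝ, ∀ h, |‖(r : ℂ) * Wf (pk r c') w h - (k h : ℂ) * Wf (pk r c') φ h‖| ≤ m :=
    ⟨mE, fun h => by rw [abs_norm]; exact hmE h⟩
  have hmk := PUP_mink3 (mG.restrict (dG F ∩ D)) (fun h => ‖(r : ℂ) * Wf (pk r c') w h - (k h : ℂ) * Wf (pk r c') φ h‖)
    (fun h => r * ‖Wf (pk r c') w1 h‖) (fun h => r * ‖Wf (pk r c') w2 h‖) (fun h => k h * ‖Wf (pk r c') φ h‖)
    hEm (hWr w1 w1I).1 (hWr w2 w2I).1 hEb (hWr w1 w1I).2 (hWr w2 w2I).2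
    (fun h => mul_nonneg hr.le (norm_nonneg _)) (fun h => mul_nonneg hr.le (norm_nonneg _))
    (fun h => mul_nonneg (hk01 h).1 (norm_nonneg _)) hpt
  have e0 : ∀ (f : SL(2, ℝ) → ℂ) (S : Set SL(2, ℝ)), ∫ g in S, (k g * ‖f g‖) ^ 2 ∂mG = ∫ g in S, k g ^ 2 * ‖f g‖ ^ 2 ∂mG := by
    intro f S
    refine integral_congr_ae (Eventually.of_forall fun g => ?_)
    change (k g * ‖f g‖) ^ 2 = k g ^ 2 * ‖f g‖ ^ 2
    ring
  have hmono : ∀ f : SL(2, ℝ) → ℝ, Measurable f → (∃ m : ℝ, ∀ h, |f h| ≤ m) →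
      ∫ h in dG F ∩ D, f h ^ 2 ∂mG ≤ ∫ h in dG F, f h ^ 2 ∂mG := by
    intro f hf hfb
    refine setIntegral_mono_set ?_ (Eventually.of_forall fun g => sq_nonneg _) (Eventually.of_forall fun g hg => hg.1)
    have h2 : (fun h => f h ^ 2) = fun h => f h * f h := by
      funext h; ring
    rw [h2]
    exact AS1_int (mG.restrict (dG F)) _ (hf.mul hf) (AS1_mul hfb hfb)
  have hind : ∀ A : Set SL(2, ℝ), MeasurableSet A → iR F (fun g => ‖A.indicator v g‖ ^ 2) =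
      ∫ g in dG F ∩ A, k g ^ 2 * ‖b g‖ ^ 2 ∂mG := by
    intro A hA
    unfold iR
    rw [← e0 b, ← setIntegral_indicator hA]
    refine integral_congr_ae (Eventually.of_forall fun g => ?_)
    by_cases h : g ∈ A
    · simp only [indicator_of_mem h, hvn]
    · simp only [indicator_of_notMem h, norm_zero]
      norm_num
  -- the three terms
  have b0 : r * ∫ h in dG F ∩ D, ‖(r : ℂ) * Wf (pk r c') w h - (k h : ℂ) * Wf (pk r c') φ h‖ ^ 2 ∂mG ≤ X :=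
    (mul_le_mul_of_nonneg_left (hmono _ hEm hEb) hr.le).trans hX
  have b1 : r * ∫ h in dG F ∩ D, (r * ‖Wf (pk r c') w1 h‖) ^ 2 ∂mG ≤ r ^ 2 * S1 * S2 * (1 + η) := by
    have h1 := SCH_proof Γ F (pk r c) (pk r c') (B.indicator v) B D S1 S2 hΓ hF hcont hsupp hcont' hsupp' hv1m
      ⟨m, hv1b⟩ hv1i hB hD hDi (fun g hg => by
        by_contra h
        exact hg (indicator_of_notMem h _)) hS1 hS2 hk1 hk2
    have h2 : iR F (fun g => ‖B.indicator v g‖ ^ 2) ≤ qn F c r φ := by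
      change ∫ g in dG F, ‖B.indicator v g‖ ^ 2 ∂mG ≤ ∫ g in dG F, ‖b g‖ ^ 2 ∂mG
      refine integral_mono_of_nonneg (Eventually.of_forall fun g => sq_nonneg _) ?_ (Eventually.of_forall fun g => ?_)
      · have h3 : (fun g => ‖b g‖ ^ 2) = fun g => ‖b g‖ * ‖b g‖ := by
          funext g; ring
        rw [h3]
        have h4 : Measurable fun g => ‖b g‖ := hb.1.norm.measurable
        have h5 : ∃ m : ℝ, ∀ h, |‖b h‖| ≤ m := ⟨m, fun h => by rw [abs_norm]; exact hm h⟩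
        exact AS1_int (mG.restrict (dG F)) _ (h4.mul h4) (AS1_mul h5 h5)
      · exact pow_le_pow_left₀ (norm_nonneg _) ((norm_indicator_le_norm_self v g).trans (hvb g)) 2
    have h3 := hfb φ hφI
    rw [hn, mul_one] at h3
    have h4 : ∫ h in dG F ∩ D, (r * ‖Wf (pk r c') w1 h‖) ^ 2 ∂mG = r ^ 2 * ∫ h in dG F ∩ D, ‖Wf (pk r c') w1 h‖ ^ 2 ∂mG := by
      rw [← integral_const_mul]
      refine integral_congr_ae (Eventually.of_forall fun g => ?_)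
      change (r * ‖Wf (pk r c') w1 g‖) ^ 2 = r ^ 2 * ‖Wf (pk r c') w1 g‖ ^ 2
      ring
    rw [h4]
    have h5 : 0 ≤ S1 * S2 := mul_nonneg hS1 hS2
    calc r * (r ^ 2 * ∫ h in dG F ∩ D, ‖Wf (pk r c') w1 h‖ ^ 2 ∂mG) ≤ r * (r ^ 2 * (S1 * S2 * qn F c r φ)) :=
          mul_le_mul_of_nonneg_left (mul_le_mul_of_nonneg_left (h1.trans (mul_le_mul_of_nonneg_left h2 h5)) (sq_nonneg r)) hr.le
      _ = r ^ 2 * S1 * S2 * (r * qn F c r φ) := by ring
      _ ≤ r ^ 2 * S1 * S2 * (1 + η) := mul_le_mul_of_nonneg_left h3 (by positivity)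
  have b2 : r * ∫ h in dG F ∩ D, (r * ‖Wf (pk r c') w2 h‖) ^ 2 ∂mG ≤
      (1 + η) ^ 2 * (r * ∫ g in dG F \ B, k g ^ 2 * ‖b g‖ ^ 2 ∂mG) := by
    have h1 := hmono _ (hWr w2 w2I).1 (hWr w2 w2I).2
    have h4 : ∫ h in dG F, (r * ‖Wf (pk r c') w2 h‖) ^ 2 ∂mG = r ^ 2 * qn F c' r w2 := by
      change _ = r ^ 2 * ∫ h in dG F, ‖Wf (pk r c') w2 h‖ ^ 2 ∂mG
      rw [← integral_const_mul]
      refine integral_congr_ae (Eventually.of_forall fun g => ?_)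
      change (r * ‖Wf (pk r c') w2 g‖) ^ 2 = r ^ 2 * ‖Wf (pk r c') w2 g‖ ^ 2
      ring
    rw [h4] at h1
    have h2 := hfr' w2 w2I
    rw [hind Bᶜ hB.compl, ← Set.sdiff_eq] at w2n
    have h5 := h2.trans (mul_le_mul_of_nonneg_left w2n hκ)
    calc r * ∫ h in dG F ∩ D, (r * ‖Wf (pk r c') w2 h‖) ^ 2 ∂mG ≤ r * (r ^ 2 * ((1 + η) / r * ((1 + η) / r * ∫ g in dG F \ B, k g ^ 2 * ‖b g‖ ^ 2 ∂mG))) :=
          mul_le_mul_of_nonneg_left (h1.trans (mul_le_mul_of_nonneg_left h5 (sq_nonneg r))) hr.le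
      _ = (1 + η) ^ 2 * (r * ∫ g in dG F \ B, k g ^ 2 * ‖b g‖ ^ 2 ∂mG) := by
        field_simp
  have hf := PUP_sq r η X _ _ _ _ _ _ hr hη hmk b0 b1 b2
  rw [e0] at hf
  exact hf

theorem PUP_alg (C1 C2 N n s a r X U T δ : ℝ) (hC1 : 0 < C1) (hC2 : 0 < C2)
    (ha : 0 < a) (hN0 : 0 ≤ N) (hN : N ≤ Real.exp (n / 4)) (hr : 0 < r)
    (hn1 : 2 * C1 * C2 * a * Real.exp s * Real.exp (-(1 / 2) * n) ≤ (δ / 2) ^ 2)
    (hX : X = r / Real.exp T) (hU : U = Real.exp (-n) / X) (hT : T = n + s) :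
    r ^ 2 * (C1 * N * Real.exp (-(T / 2)) * U * (1 + X * Real.exp T / r)) *
      (C2 * N * (a * Real.exp (-n)) * Real.exp (T / 2) / r) * 2 ≤ δ ^ 2 := by
  have hE : 0 < Real.exp n := Real.exp_pos n
  have hET : 0 < Real.exp T := Real.exp_pos T
  have hEs : 0 < Real.exp s := Real.exp_pos s
  have hX0 : 0 < X := by rw [hX]; positivity
  have e1 : Real.exp (-n) = (Real.exp n)⁻¹ := Real.exp_neg n
  have e2 : r * U = Real.exp s := by
    rw [hU, hX, e1, hT, Real.exp_add]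
    field_simp
  have e3 : X * Real.exp T / r = 1 := by
    rw [hX]
    field_simp
  have e5 : Real.exp (-(T / 2)) * Real.exp (T / 2) = 1 := by
    rw [← Real.exp_add]
    simp
  have e6 : r ^ 2 * (C1 * N * Real.exp (-(T / 2)) * U * (1 + X * Real.exp T / r)) *
      (C2 * N * (a * Real.exp (-n)) * Real.exp (T / 2) / r) * 2 =
      2 * C1 * C2 * a * (r * U) * (1 + X * Real.exp T / r) * (N * N * Real.exp (-n)) * (Real.exp (-(T / 2)) * Real.exp (T / 2)) := by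
    field_simp
  rw [e6, e5, e2, e3, mul_one]
  have h7 : N * N * Real.exp (-n) ≤ Real.exp (-(1 / 2) * n) := by
    calc N * N * Real.exp (-n) ≤ Real.exp (n / 4) * Real.exp (n / 4) * Real.exp (-n) :=
          mul_le_mul_of_nonneg_right (mul_le_mul hN hN hN0 (Real.exp_pos _).le) (Real.exp_pos _).le
      _ = Real.exp (-(1 / 2) * n) := by
          rw [← Real.exp_add, ← Real.exp_add]
          congr 1
          ring
  have h8 : 0 ≤ 2 * C1 * C2 * a * Real.exp s * (1 + 1) := by positivity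
  refine (mul_le_mul_of_nonneg_left h7 h8).trans ?_
  nlinarith

theorem PUP_n1 (M0 κ δ : ℝ) (hκ : 0 < κ) (hδ : 0 < δ) : ∃ n1 : ℝ, 0 ≤ n1 ∧ ∀ n : ℝ, n1 ≤ n → M0 * Real.exp (-κ * n) ≤ δ ^ 2 := by
  have h1 : Tendsto (fun n : ℝ => M0 * Real.exp (-κ * n)) atTop (𝓝 (M0 * 0)) := by
    refine Tendsto.const_mul M0 ?_
    refine Real.tendsto_exp_atBot.comp ?_
    exact Tendsto.const_mul_atTop_of_neg (by linarith) tendsto_id
  rw [mul_zero] at h1
  have h2 := h1.eventually_le_const (show (0 : ℝ) < δ ^ 2 by positivity)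
  obtain ⟨N, hN⟩ := eventually_atTop.1 h2
  exact ⟨max N 0, le_max_right _ _, fun n hn => hN n ((le_max_left _ _).trans hn)⟩

theorem PUP_main (hXCM : XCM_stmt) (hSTB : STB_stmt) (hNM3 : NM3_stmt) (hSYB : SYB_stmt) (hSS1 : SS1_stmt) (hSS3 : SS3_stmt) :
    PUP_stmt := by
  classical
  intro Γ F β α hΓ hF hβ hα
  obtain ⟨-, -, -, hst, hmono, -⟩ := hSTB
  obtain ⟨a1, C1, ha1, hC1, hS1⟩ := hSS1 Γ β α β α hΓ hβ.1 hα.1 hβ.1 hα.1
  obtain ⟨C2, hC2, hS3⟩ := hSS3 Γ β α β α hΓ hβ.1 hα.1 hβ.1 hα.1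
  have haM : ∀ s t, aM (s + t) = aM s * aM t := A_GLC.2.2.2.2.2.2.2.2.2.2.1
  refine ⟨min a1 (1 / 8), lt_min ha1 (by norm_num), ?_⟩
  intro a s δ ha0 haa hs0 hδ0
  have haa1 : a ≤ a1 := haa.trans (min_le_left _ _)
  have ha8 : a ≤ 1 / 8 := haa.trans (min_le_right _ _)
  obtain ⟨n1, hn1, hn⟩ := PUP_n1 (2 * C1 * C2 * a * Real.exp s) (1 / 2) (δ / 2) (by norm_num) (by positivity)
  refine ⟨n1, hn1, ?_⟩
  intro n A hnn hA η hη
  have hn0 : (0 : ℝ) ≤ n := hn1.trans hnn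
  set T : ℝ := n + s with hT
  have hT0 : 0 ≤ T := by linarith
  have hBst : BB (1 / 4) (st (-T) β) := by
    have h1 := hst (1 / 4) (-T) β hβ
    refine (hmono _ (1 / 4) _ ?_).2.2 h1
    have h2 : Real.exp (-T) ≤ 1 := Real.exp_le_one_iff.2 (by linarith)
    nlinarith
  have hη1 : 0 < min η 1 := lt_min hη one_pos
  obtain ⟨rN, hrN, hN1⟩ := hNM3 Γ F α β hΓ hF hα hβ (min η 1) hη1
  obtain ⟨rN', hrN', hN2⟩ := hNM3 Γ F α (st (-T) β) hΓ hF hα hBst (min η 1) hη1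
  obtain ⟨om, rX, hom, hrX, hX⟩ := hXCM Γ F β α (st (-T) β) α hΓ hF hβ hα hBst hα (η ^ 2) (by positivity)
  refine ⟨om, max (max rN rN') (max rX (Real.exp T)), hom, ?_, ?_⟩
  · exact hrN.trans ((le_max_left _ _).trans (le_max_left _ _))
  intro r φ k ka kn kl hr hφ hnφ hk hk01 hkev hka hkn hkl
  have hr1 : rN ≤ r := ((le_max_left _ _).trans (le_max_left _ _)).trans hr
  have hr2 : rN' ≤ r := ((le_max_right _ _).trans (le_max_left _ _)).trans hr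
  have hr3 : rX ≤ r := ((le_max_left _ _).trans (le_max_right _ _)).trans hr
  have hr4 : Real.exp T ≤ r := ((le_max_right _ _).trans (le_max_right _ _)).trans hr
  have hr1' : 1 ≤ r := hrN.trans hr1
  have hr0 : 0 < r := by linarith
  obtain ⟨hf1, -⟩ := hN1 r hr1
  obtain ⟨hf2, -⟩ := hN2 r hr2
  have hXX := hX r φ k ka kn kl hr3 hφ hnφ hk hk01 hkev hka hkn hkl
  have hc1 : TB (1 / 4) (pc β α) := (A_CV1.2.2 (1 / 4) α β hα.1 hβ.1).1
  have hc2 : TB (1 / 4) (pc (st (-T) β) α) := (A_CV1.2.2 (1 / 4) α (st (-T) β) hα.1 hBst.1).1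
  set t1 : ℝ := Real.log r - n - s with ht1
  set X : ℝ := Real.exp t1 with hXd
  have hXe : X = r / Real.exp T := by
    rw [hXd, ht1, hT, show Real.log r - n - s = Real.log r - (n + s) by ring, Real.exp_sub, Real.exp_log hr0]
  have hX0 : 0 < X := Real.exp_pos _
  have hX1 : 1 ≤ X := by
    rw [hXe, le_div_iff₀ (Real.exp_pos _), one_mul]
    exact hr4
  set U : ℝ := Real.exp (-n) / X with hU
  have hU0 : 0 < U := div_pos (Real.exp_pos _) hX0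
  have hen1 : Real.exp (-n) ≤ 1 := Real.exp_le_one_iff.2 (by linarith)
  have hen0 : 0 < Real.exp (-n) := Real.exp_pos _
  have hXU : X * U ≤ 1 := by
    rw [hU, mul_div_cancel₀ _ hX0.ne']
    exact hen1
  have hv1 : a * Real.exp (-n) ≤ 1 := by nlinarith
  obtain ⟨-, hFm, -, hFi⟩ := HV.BWM_proof Γ A a (Real.exp (-n)) hΓ
  have hmt : ∀ t : ℝ, Measurable fun g : SL(2, ℝ) => g * aM t := fun t => (continuous_mul_const _).measurable
  have hFit : ∀ (t : ℝ) (γ : Γ) (g : SL(2, ℝ)), (γ : SL(2, ℝ)) * g ∈ {g : SL(2, ℝ) | g * aM t ∈ HV.FW Γ A a (Real.exp (-n))} ↔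
      g ∈ {g : SL(2, ℝ) | g * aM t ∈ HV.FW Γ A a (Real.exp (-n))} := by
    intro t γ g
    show (γ : SL(2, ℝ)) * g * aM t ∈ HV.FW Γ A a (Real.exp (-n)) ↔ g * aM t ∈ HV.FW Γ A a (Real.exp (-n))
    rw [mul_assoc]
    exact hFi γ _
  have core := PUP_core hSYB Γ F hΓ hF (pc β α) (pc (st (-T) β) α) hc1 hc2 r (min η 1) (η ^ 2)
    (C1 * A.card * Real.exp (-(T / 2)) * U * (1 + X * Real.exp T / r))
    (C2 * A.card * (a * Real.exp (-n)) * Real.exp (T / 2) / r) φ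
    {g : SL(2, ℝ) | g * aM t1 ∈ HV.FW Γ A a (Real.exp (-n))}
    {g : SL(2, ℝ) | g * aM (-n) ∈ HV.FW Γ A a (Real.exp (-n))} k hr0 hη1.le (EF1_invC hφ) hnφ hf1 hf2
    (hmt t1 hFm) (hmt (-n) hFm) (hFit t1) (hFit _) (by positivity) (by positivity) ?_ ?_ hk.i0 hk01 hXX
  · have h1 : Real.sqrt (η ^ 2) = η := Real.sqrt_sq hη.le
    rw [h1] at core
    have h2 : Real.sqrt (r ^ 2 * (C1 * A.card * Real.exp (-(T / 2)) * U * (1 + X * Real.exp T / r)) *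
        (C2 * A.card * (a * Real.exp (-n)) * Real.exp (T / 2) / r) * (1 + min η 1)) ≤ δ := by
      rw [Real.sqrt_le_left hδ0.le]
      refine le_trans (mul_le_mul_of_nonneg_left ?_ (by positivity))
        (PUP_alg C1 C2 A.card n s a r X U T δ hC1 hC2 ha0 (Nat.cast_nonneg _) hA hr0 (hn n hnn) hXe hU hT)
      have := min_le_right η 1
      linarith
    have h3 : (1 + min η 1) * Real.sqrt (r * ∫ g in dG F \ {g : SL(2, ℝ) | g * aM t1 ∈ HV.FW Γ A a (Real.exp (-n))}, k g ^ 2 * ‖Wf (pk r (pc β α)) φ g‖ ^ 2 ∂mG) ≤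
        (1 + η) * Real.sqrt (r * ∫ g in dG F \ {g : SL(2, ℝ) | g * aM t1 ∈ HV.FW Γ A a (Real.exp (-n))}, k g ^ 2 * ‖Wf (pk r (pc β α)) φ g‖ ^ 2 ∂mG) := by
      refine mul_le_mul_of_nonneg_right ?_ (Real.sqrt_nonneg _)
      have := min_le_left η 1
      linarith
    refine core.trans ?_
    calc _ ≤ η + δ + (1 + η) * Real.sqrt (r * ∫ g in dG F \ {g : SL(2, ℝ) | g * aM t1 ∈ HV.FW Γ A a (Real.exp (-n))}, k g ^ 2 * ‖Wf (pk r (pc β α)) φ g‖ ^ 2 ∂mG) :=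
          add_le_add (add_le_add le_rfl h2) h3
      _ = _ := by rw [add_comm η δ]; rfl
  · intro g
    set A1 : Finset SL(2, ℝ) := A.image fun y => y * aM (-t1) with hA1
    have hcA : (A1.card : ℝ) ≤ A.card := by exact_mod_cast Finset.card_image_le
    have hsub : {k | g * k ∈ {g : SL(2, ℝ) | g * aM t1 ∈ HV.FW Γ A a (Real.exp (-n))}} ⊆
        {k : SL(2, ℝ) | ∃ y ∈ A1, ∃ γ : Γ, bq a (a * X) (a * U) (y⁻¹ * (γ : SL(2, ℝ)) * (g * k))} := by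
      intro k hk
      obtain ⟨y, hy, γ, hb⟩ := hk
      refine ⟨y * aM (-t1), Finset.mem_image_of_mem _ hy, γ, ?_⟩
      have h5 := MS1_box _ _ _ t1 y (g * k) γ hb haM
      rw [mul_div_assoc] at h5
      exact h5
    refine (lintegral_mono_set hsub).trans ?_
    refine (hS1 a T r X U A1 g ha0 haa1 hT0 hr1' hX1 hU0 hXU).trans ?_
    apply ENNReal.ofReal_le_ofReal
    refine mul_le_mul_of_nonneg_right ?_ (by positivity)
    refine mul_le_mul_of_nonneg_right ?_ hU0.le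
    refine mul_le_mul_of_nonneg_right ?_ (Real.exp_pos _).le
    exact mul_le_mul_of_nonneg_left hcA hC1.le
  · intro g
    set A1 : Finset SL(2, ℝ) := A.image fun y => y * aM (-(-n)) with hA1
    have hcA : (A1.card : ℝ) ≤ A.card := by exact_mod_cast Finset.card_image_le
    have hsub : {k | g * k⁻¹ ∈ {g : SL(2, ℝ) | g * aM (-n) ∈ HV.FW Γ A a (Real.exp (-n))}} ⊆
        {k : SL(2, ℝ) | ∃ y ∈ A1, ∃ γ : Γ, bq a (a * Real.exp (-n)) a (y⁻¹ * (γ : SL(2, ℝ)) * (g * k⁻¹))} := by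
      intro k hk
      obtain ⟨y, hy, γ, hb⟩ := hk
      refine ⟨y * aM (-(-n)), Finset.mem_image_of_mem _ hy, γ, ?_⟩
      have h5 := MS1_box _ _ _ (-n) y (g * k⁻¹) γ hb haM
      rw [mul_div_assoc, div_self (Real.exp_pos _).ne', mul_one] at h5
      exact h5
    refine (lintegral_mono_set hsub).trans ?_
    refine (hS3 a T r (a * Real.exp (-n)) A1 g ha0 ha8 hT0 hr1' (by positivity) hv1).trans ?_
    apply ENNReal.ofReal_le_ofReal
    refine div_le_div_of_nonneg_right ?_ hr0.le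
    refine mul_le_mul_of_nonneg_right ?_ (Real.exp_pos _).le
    refine mul_le_mul_of_nonneg_right ?_ (by positivity)
    exact mul_le_mul_of_nonneg_left hcA hC2.le

/-- **Row PUP** -/
theorem PUP_proof (hXCM : XCM_stmt) (hSTB : STB_stmt) (hNM3 : NM3_stmt) (hSYB : SYB_stmt) (hSS1 : SS1_stmt) (hSS3 : SS3_stmt) :
    PUP_stmt := PUP_main hXCM hSTB hNM3 hSYB hSS1 hSS3

end Pool.Agent.TP
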